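import Pool.Agent.J6H64.DP.Stm

/-! DP-BASE: cycles of length at least four are flag normal pseudomanifolds of rank two. -/

set_option autoImplicit false

namespace Pool.Agent.J6H64.DP

open Pool.Agent.W497.FS

theorem s_base : S_BASE := by
  intro V _ H W n hn hφ
  classical
  obtain ⟨φ⟩ := hφ
  obtain ⟨m, rfl⟩ : ∃ m, n = m + 4 := ⟨n - 4, by omega⟩
  -- the vertices `e i`
  obtain ⟨e, he⟩ : ∃ e : ZMod (m + 4) → V, e = fun i => (φ.symm (i : Fin (m + 4))).1 := ⟨_, rfl⟩
  have heW : ∀ i, e i ∈ W := by
    intro i
    rw [he]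
    exact (φ.symm i).2
  have hinj : ∀ i j, e i = e j → i = j := by
    intro i j h
    rw [he] at h
    exact φ.symm.injective (Subtype.ext h)
  have hsurj : ∀ w ∈ W, ∃ i, e i = w := by
    intro w hw
    refine ⟨φ ⟨w, hw⟩, ?_⟩
    rw [he]
    simp
  have hadj : ∀ i j, H.Adj (e i) (e j) ↔ (i - j = 1 ∨ j - i = 1) := by
    intro i j
    have h1 : (SimpleGraph.cycleGraph (m + 4)).Adj i j ↔ (i - j = 1 ∨ j - i = 1) :=
      SimpleGraph.cycleGraph_adj (n := m + 2)
    rw [← h1, he]
    exact φ.symm.map_adj_iff (v := (i : Fin (m + 4))) (w := (j : Fin (m + 4)))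
  have hnz : ∀ k : ℕ, 0 < k → k < m + 4 → (k : ZMod (m + 4)) ≠ 0 := by
    intro k hk hk2 h
    rw [ZMod.natCast_eq_zero_iff] at h
    exact absurd (Nat.le_of_dvd hk h) (by omega)
  have n1 : (1 : ZMod (m + 4)) ≠ 0 := by
    have := hnz 1 (by norm_num) (by omega)
    exact_mod_cast this
  have n2 : (2 : ZMod (m + 4)) ≠ 0 := by
    have := hnz 2 (by norm_num) (by omega)
    exact_mod_cast this
  have n3 : (3 : ZMod (m + 4)) ≠ 0 := by
    have := hnz 3 (by norm_num) (by omega)
    exact_mod_cast this
  refine ⟨⟨e 0, heW 0⟩, ?_, ?_⟩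
  · -- connected
    intro A hA hne hAW
    by_contra hcon
    push Not at hcon
    have hcl : ∀ i, e i ∈ A → e (i + 1) ∈ A := by
      intro i hi
      by_contra h
      exact hcon (e i) hi (e (i + 1)) (heW _) h ((hadj _ _).2 (Or.inr (by ring)))
    have hcl2 : ∀ (k : ℕ) i, e i ∈ A → e (i + (k : ZMod (m + 4))) ∈ A := by
      intro k
      induction k with
      | zero => intro i hi; simpa using hi
      | succ k ih =>
        intro i hi
        have := hcl _ (ih i hi)
        rw [Nat.cast_succ, ← add_assoc]
        exact this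
    obtain ⟨a, ha⟩ := hne
    obtain ⟨i, rfl⟩ := hsurj a (hA ha)
    apply hAW
    apply Finset.Subset.antisymm hA
    intro w hw
    obtain ⟨j, rfl⟩ := hsurj w hw
    have := hcl2 (j - i).val i ha
    rw [ZMod.natCast_zmod_val, add_sub_cancel] at this
    exact this
  · intro v hv
    obtain ⟨i, rfl⟩ := hsurj v hv
    have hlk : lk H W (e i) = {e (i + 1), e (i - 1)} := by
      ext w
      simp only [lk, Finset.mem_filter, Finset.mem_insert, Finset.mem_singleton]
      constructor
      · rintro ⟨hw, h⟩
        obtain ⟨j, rfl⟩ := hsurj w hw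
        rcases (hadj _ _).1 h with h | h
        · right
          congr 1
          rw [← h]; ring
        · left
          congr 1
          rw [← h]; ring
      · rintro (rfl | rfl)
        · exact ⟨heW _, (hadj _ _).2 (Or.inr (by ring))⟩
        · exact ⟨heW _, (hadj _ _).2 (Or.inl (by ring))⟩
    show (lk H W (e i)).card = 2 ∧ ∀ x ∈ lk H W (e i), ∀ y ∈ lk H W (e i), ¬ H.Adj x y
    rw [hlk]
    refine ⟨Finset.card_pair ?_, ?_⟩
    · intro h
      have := hinj _ _ h
      apply n2
      linear_combination this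
    · have k1 : ¬ H.Adj (e (i + 1)) (e (i - 1)) := by
        intro h
        rcases (hadj _ _).1 h with h | h
        · apply n1
          linear_combination h
        · apply n3
          linear_combination -h
      intro x hx y hy hxy
      simp only [Finset.mem_insert, Finset.mem_singleton] at hx hy
      rcases hx with rfl | rfl <;> rcases hy with rfl | rfl
      · exact H.loopless.irrefl _ hxy
      · exact k1 hxy
      · exact k1 hxy.symm
      · exact H.loopless.irrefl _ hxy

end Pool.Agent.J6H64.DP
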