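import Pool.Agent.J6H64.DP.Stm

/-!
# Module DP-ISO: invariance under isomorphisms
-/

set_option autoImplicit false

namespace Pool.Agent.J6H64.DP

theorem s_iso : S_ISO := by
  intro d
  induction d using Nat.twoStepInduction with
  | zero =>
    intro V V' M M' _ h
    exact h
  | one =>
    rintro V V' M M' ⟨φ⟩ ⟨n, hn, ⟨ψ⟩⟩
    exact ⟨n, hn, ⟨φ.symm.trans ψ⟩⟩
  | more d _ ih =>
    rintro V V' M M' ⟨φ⟩ ⟨h1, h2⟩
    refine ⟨(SimpleGraph.Iso.connected_iff φ).1 h1, fun v' => ?_⟩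
    obtain ⟨v, rfl⟩ := φ.surjective v'
    refine ih _ _ _ _ ⟨?_⟩ (h2 v)
    exact
      { toEquiv := φ.mapNeighborSet v
        map_rel_iff' := by
          intro a b
          exact φ.map_adj_iff }

end Pool.Agent.J6H64.DP
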