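import Mathlib
import Pool.Agent.W497.FS.Defs

/-!
# Project DP (helper64): discrete pseudomanifolds (target `MP_c38f4a_co`)

The bounds of helper30 for flag normal pseudomanifolds (`Pool.Agent.J6H30.Gal2.Edges`, `Gal3.Main`), for the discrete
pseudomanifolds of the problem.
-/

set_option autoImplicit false

namespace Pool.Agent.J6H64.DP

open Pool.Agent.W497.FS

/-- discrete `d`-pseudomanifolds: for `d = 1` the cycles `C_n`, `n ≥ 4`; for `d ≥ 2` the connected graphs in which the
subgraph induced on the neighbours of each vertex is a discrete `(d-1)`-pseudomanifold -/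
def DiscretePM : ℕ → (V : Type) → SimpleGraph V → Prop
  | 0, _, _ => False
  | 1, _, M => ∃ n, 4 ≤ n ∧ Nonempty (M ≃g SimpleGraph.cycleGraph n)
  | d + 2, _, M => M.Connected ∧ ∀ v, DiscretePM (d + 1) _ (M.induce (M.neighborSet v))

/-- **DP-ISO** (25 lines). Invariance under isomorphisms (induction over `d`; the induced subgraphs on the neighbours of
`v` and of `φ v` are isomorphic). -/
def S_ISO : Prop := ∀ (d : ℕ) (V V' : Type) (M : SimpleGraph V) (M' : SimpleGraph V'), Nonempty (M ≃g M') →
  DiscretePM d V M → DiscretePM d V' M'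

/-- **DP-BASE** (60 lines). Cycles of length at least four. `NP H 2 W`: `W` is nonempty, `SConn H W`, and the neighbours
in `W` of each `v ∈ W` are two vertices which are not adjacent. -/
def S_BASE : Prop := ∀ (V : Type) [Fintype V] (H : SimpleGraph V) (W : Finset V) (n : ℕ), 4 ≤ n →
  Nonempty (H.induce (W : Set V) ≃g SimpleGraph.cycleGraph n) → NP H 2 W

/-- **DP-MAIN** (60 lines; uses `S_ISO`, `S_BASE`). Induction over `d`; `lk H W v` is `W.filter (H.Adj v)`, and
`(H.induce W).induce (neighborSet v) ≃g H.induce (lk H W v)`. -/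
def S_MAIN : Prop := ∀ (d : ℕ) (V : Type) [Fintype V] (H : SimpleGraph V) (W : Finset V),
  DiscretePM d _ (H.induce (W : Set V)) → NP H (d + 1) W

open Classical in
/-- **DP-COMP** (70 lines). The join factors are the connected components of the complement (see `comps`,
`mem_comps` in the W497.FS files: `C ⊆ W`, `Prm H C`, `C` adjacent to the rest of `W`). -/
def S_COMP : Prop := ∀ (V : Type) [Fintype V] [DecidableEq V] (H : SimpleGraph V),
  Nat.card Hᶜ.ConnectedComponent =
    ((Finset.univ : Finset (Finset V)).filter (fun C => Prm H C ∧ ∀ c ∈ C, ∀ x, x ∉ C → H.Adj c x)).card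

end Pool.Agent.J6H64.DP
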