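import Mathlib
import Pool.Agent.J6H64.DP.Stm

/-!
# Project DP (helper64), module DP-MAIN (helper68)

Discrete pseudomanifolds induced on a finite set of vertices are flag normal pseudomanifolds.
-/

set_option autoImplicit false

namespace Pool.Agent.J6H64.DP

open Pool.Agent.W497.FS

/-- the graph induced on the neighbours of `v` in `W` is the graph induced on `lk H W v` -/
lemma link_iso {V : Type} (H : SimpleGraph V) (W : Finset V) (v : (W : Set V)) :
    Nonempty (((H.induce (W : Set V)).induce ((H.induce (W : Set V)).neighborSet v)) ≃g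
      H.induce ((lk H W v.1 : Finset V) : Set V)) := by
  classical
  have hmem : ∀ x : V, x ∈ ((lk H W v.1 : Finset V) : Set V) ↔ x ∈ W ∧ H.Adj v.1 x := by
    intro x
    simp [lk]
  refine ⟨⟨⟨fun x => ⟨x.1.1, (hmem _).2 ⟨x.1.2, x.2⟩⟩,
    fun y => ⟨⟨y.1, ((hmem _).1 y.2).1⟩, ((hmem _).1 y.2).2⟩, ?_, ?_⟩, ?_⟩⟩
  · intro x
    rfl
  · intro y
    rfl
  · intro x y
    rfl

/-- a connected induced graph has no proper nonempty part without an edge to the rest -/
lemma sconn_of_connected {V : Type} (H : SimpleGraph V) (W : Finset V)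
    (hc : (H.induce (W : Set V)).Connected) : SConn H W := by
  intro A hA hne hAW
  obtain ⟨a, ha⟩ := hne
  have hb : ∃ b ∈ W, b ∉ A := by
    by_contra hcon
    push Not at hcon
    exact hAW (Finset.Subset.antisymm hA hcon)
  obtain ⟨b, hbW, hbA⟩ := hb
  obtain ⟨p⟩ := hc.preconnected ⟨a, Finset.mem_coe.2 (hA ha)⟩ ⟨b, Finset.mem_coe.2 hbW⟩
  obtain ⟨e, _, h1, h2⟩ := p.exists_boundary_dart {x | x.1 ∈ A} ha hbA
  exact ⟨e.fst.1, h1, e.snd.1, e.snd.2, h2, e.adj⟩

/-- **DP-MAIN.** -/
theorem s_main (h1 : S_ISO) (h2 : S_BASE) : S_MAIN := by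
  intro d
  induction d with
  | zero =>
    intro V _ H W h
    exact h.elim
  | succ d ih =>
    intro V _ H W h
    cases d with
    | zero =>
      obtain ⟨n, hn, hiso⟩ := h
      exact h2 V H W n hn hiso
    | succ d =>
      obtain ⟨hc, hl⟩ := h
      refine ⟨?_, sconn_of_connected H W hc, ?_⟩
      · obtain ⟨x⟩ := hc.nonempty
        exact ⟨x.1, x.2⟩
      · intro v hv
        exact ih V H (lk H W v)
          (h1 (d + 1) _ _ _ _ (link_iso H W ⟨v, Finset.mem_coe.2 hv⟩) (hl ⟨v, Finset.mem_coe.2 hv⟩))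

end Pool.Agent.J6H64.DP
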