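import Pool.Agent.J6H64.DP.Stm

/-!
# DP-COMP (module of project DP of helper64, written by helper27)

The join factors of a flag complex are the connected components of the complement of its graph.
-/

set_option autoImplicit false

namespace Pool.Agent.J6H64.DP

open Pool.Agent.W497.FS

open Classical in
/-- the vertices of a connected component of the complement -/
noncomputable def compSet {V : Type} [Fintype V] (H : SimpleGraph V)
    (K : Hᶜ.ConnectedComponent) : Finset V :=
  Finset.univ.filter (fun v => Hᶜ.connectedComponentMk v = K)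

theorem mem_compSet {V : Type} [Fintype V] (H : SimpleGraph V) (K : Hᶜ.ConnectedComponent)
    (v : V) : v ∈ compSet H K ↔ Hᶜ.connectedComponentMk v = K := by
  classical
  unfold compSet
  rw [Finset.mem_filter]
  exact ⟨fun h => h.2, fun h => ⟨Finset.mem_univ _, h⟩⟩

/-- a set that contains one but not all vertices of a component has a boundary edge -/
theorem exists_boundary {V : Type} (H : SimpleGraph V) (A : Set V) (a b : V) (ha : a ∈ A)
    (hb : b ∉ A) (h : Hᶜ.connectedComponentMk a = Hᶜ.connectedComponentMk b) :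
    ∃ x y, x ∈ A ∧ y ∉ A ∧ Hᶜ.Adj x y ∧
      Hᶜ.connectedComponentMk x = Hᶜ.connectedComponentMk a ∧
      Hᶜ.connectedComponentMk y = Hᶜ.connectedComponentMk a := by
  have hr : Hᶜ.Reachable a b := SimpleGraph.ConnectedComponent.exact h
  obtain ⟨p⟩ := hr
  obtain ⟨d, hd, h1, h2⟩ := p.exists_boundary_dart A ha hb
  classical
  have h3 : d.fst ∈ p.support := p.dart_fst_mem_support_of_mem_darts hd
  have h4 : Hᶜ.connectedComponentMk d.fst = Hᶜ.connectedComponentMk a :=
    (SimpleGraph.ConnectedComponent.sound ⟨p.takeUntil d.fst h3⟩).symm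
  have h5 : Hᶜ.connectedComponentMk d.snd = Hᶜ.connectedComponentMk d.fst :=
    (SimpleGraph.ConnectedComponent.sound d.adj.reachable).symm
  exact ⟨d.fst, d.snd, h1, h2, d.adj, h4, h5.trans h4⟩

/-- **DP-COMP.** -/
theorem s_comp : S_COMP := by
  classical
  intro V _ _ H
  have h1 : ∀ K : Hᶜ.ConnectedComponent, compSet H K ∈
      (Finset.univ : Finset (Finset V)).filter
        (fun C => Prm H C ∧ ∀ c ∈ C, ∀ x, x ∉ C → H.Adj c x) := by
    intro K
    rw [Finset.mem_filter]
    refine ⟨Finset.mem_univ _, ⟨?_, ?_⟩, ?_⟩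
    · obtain ⟨v, hv⟩ := K.exists_rep
      exact ⟨v, (mem_compSet H K v).2 hv⟩
    · intro A hA hne hAC
      obtain ⟨a, ha⟩ := hne
      obtain ⟨b, hb, hbA⟩ : ∃ b ∈ compSet H K, b ∉ A := by
        by_contra hcon
        push Not at hcon
        exact hAC (Finset.Subset.antisymm hA hcon)
      have hak := (mem_compSet H K a).1 (hA ha)
      have hbk := (mem_compSet H K b).1 hb
      obtain ⟨x, y, hx, hy, hxy, _, hy2⟩ := exists_boundary H (A : Set V) a b
        (Finset.mem_coe.2 ha) (fun h => hbA (Finset.mem_coe.1 h)) (hak.trans hbk.symm)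
      refine ⟨x, Finset.mem_coe.1 hx, y, (mem_compSet H K y).2 (hy2.trans hak),
        fun h => hy (Finset.mem_coe.2 h), ?_⟩
      rw [SimpleGraph.compl_adj] at hxy
      exact hxy.2
    · intro c hc x hx
      by_contra hcon
      have hne : c ≠ x := fun h => hx (h ▸ hc)
      have hadj : Hᶜ.Adj c x := (SimpleGraph.compl_adj H c x).2 ⟨hne, hcon⟩
      have h5 : Hᶜ.connectedComponentMk c = Hᶜ.connectedComponentMk x :=
        SimpleGraph.ConnectedComponent.sound hadj.reachable
      exact hx ((mem_compSet H K x).2 (h5.symm.trans ((mem_compSet H K c).1 hc)))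
  have h2 : Function.Bijective (fun K : Hᶜ.ConnectedComponent =>
      (⟨compSet H K, h1 K⟩ : {C // C ∈ (Finset.univ : Finset (Finset V)).filter
        (fun C => Prm H C ∧ ∀ c ∈ C, ∀ x, x ∉ C → H.Adj c x)})) := by
    constructor
    · intro K K' h
      have h3 : compSet H K = compSet H K' := congrArg Subtype.val h
      obtain ⟨v, hv⟩ := K.exists_rep
      have h4 : v ∈ compSet H K' := h3 ▸ (mem_compSet H K v).2 hv
      exact hv.symm.trans ((mem_compSet H K' v).1 h4)
    · rintro ⟨C, hC⟩
      have hC2 := (Finset.mem_filter.1 hC).2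
      obtain ⟨⟨⟨c, hc⟩, hp⟩, hf⟩ := hC2
      refine ⟨Hᶜ.connectedComponentMk c, Subtype.ext ?_⟩
      show compSet H (Hᶜ.connectedComponentMk c) = C
      ext v
      rw [mem_compSet]
      constructor
      · intro hv
        by_contra hvC
        obtain ⟨x, y, hx, hy, hxy, _, _⟩ := exists_boundary H (C : Set V) c v
          (Finset.mem_coe.2 hc) (fun h => hvC (Finset.mem_coe.1 h)) hv.symm
        rw [SimpleGraph.compl_adj] at hxy
        exact hxy.2 (hf x (Finset.mem_coe.1 hx) y (fun h => hy (Finset.mem_coe.2 h)))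
      · intro hv
        by_contra hvc
        obtain ⟨a, ha, b, hb, hbA, hab⟩ := hp
          (C.filter (fun u => Hᶜ.connectedComponentMk u = Hᶜ.connectedComponentMk c))
          (Finset.filter_subset _ _) ⟨c, Finset.mem_filter.2 ⟨hc, rfl⟩⟩
          (fun h => by
            rw [← h] at hv
            exact hvc (Finset.mem_filter.1 hv).2)
        have ha2 := (Finset.mem_filter.1 ha).2
        have hne : a ≠ b := fun h => hbA (h ▸ ha)
        have hadj : Hᶜ.Adj a b := (SimpleGraph.compl_adj H a b).2 ⟨hne, hab⟩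
        have h5 : Hᶜ.connectedComponentMk a = Hᶜ.connectedComponentMk b :=
          SimpleGraph.ConnectedComponent.sound hadj.reachable
        exact hbA (Finset.mem_filter.2 ⟨hb, h5.symm.trans ha2⟩)
  rw [Nat.card_eq_of_bijective _ h2, Nat.card_eq_fintype_card, Fintype.card_coe]

end Pool.Agent.J6H64.DP
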