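import Pool.Agent.J6H64.DP.Surf
import Pool.Agent.J6H30.Gal4.Comp

/-!
# The second gamma-number and the join factors of flag normal pseudomanifolds

The argument of helper30 (`Pool.Agent.J6H30.Gal4.Factors`, there for Eulerian complexes), with the surfaces of
`Surf.lean` in rank three.
-/

set_option autoImplicit false
set_option linter.unusedSectionVars false

namespace Pool.Agent.J6H64.DP

open Pool.Agent.W497.FS Pool.Agent.TH417.Gal Pool.Agent.J6H30.Gal3

variable {α : Type} [DecidableEq α] {H : SimpleGraph α} {W : Finset α}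

/-- rank at most three -/
theorem G2_low {d : ℕ} (hd : d + 1 ≤ 3) (h : NP H (d + 1) W) : 0 ≤ G2 H ((d + 1 : ℕ) : ℤ) W := by
  rcases d with _ | _ | _ | d
  · obtain ⟨h3, h4⟩ := h
    have h5 : dg H W = 0 := by
      unfold dg
      refine Finset.sum_eq_zero fun v hv => ?_
      rw [Finset.card_eq_zero, Finset.eq_empty_iff_forall_notMem]
      intro x hx
      rw [mem_lk] at hx
      exact h4 v hv x hx.1 hx.2
    rw [G2, h5, h3]
    norm_num
  · have h5 : dg H W = 2 * W.card := by
      unfold dg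
      rw [Finset.sum_congr rfl (Pool.Agent.J6H30.Gal2.NP2_card h), Finset.sum_const, smul_eq_mul]
      ring
    rw [G2, h5]
    push_cast
    nlinarith
  · have h5 := surf h
    have h6 : (6 * (W.card : ℤ)) ≤ dg H W + 12 := by exact_mod_cast h5
    rw [G2]
    push_cast
    linarith
  · omega

/-- the contribution of a factor -/
def term (f : Finset α → ℕ) (C : Finset α) : ℕ :=
  (C.card - 3 * f C - 1) * (C.card - 3 * f C - 2)

open scoped Classical in
/-- the factors with a face with four vertices -/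
noncomputable def bigc (H : SimpleGraph α) (W : Finset α) : Finset (Finset α) :=
  (comps H W).filter (fun C => ∃ G ∈ cl H C, G.card = 4)

theorem bigc_union {A B : Finset α} (hAB : Full H A B) (f : Finset α → ℕ) :
    ∑ C ∈ bigc H (A ∪ B), term f C = ∑ C ∈ bigc H A, term f C + ∑ C ∈ bigc H B, term f C := by
  classical
  rw [bigc, comps_union hAB, Finset.filter_union, Finset.sum_union]
  · rfl
  · exact Finset.disjoint_filter_filter (comps_disjoint hAB)

theorem term_ge {N e c : ℕ} (hc : c ≤ e) :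
    RR ((N : ℤ) + 1 - 3 * e) ≤ (((N - 3 * c - 1) * (N - 3 * c - 2) : ℕ) : ℤ) := by
  rcases Nat.lt_or_ge N (3 * e + 3) with h | h
  · rw [RR, if_pos]
    · positivity
    · have : (N : ℤ) < 3 * e + 3 := by exact_mod_cast h
      linarith
  · have h1 : (3 * (e : ℤ) + 3) ≤ N := by exact_mod_cast h
    rw [RR_eq (by linarith)]
    have h2 : (((N - 3 * c - 1 : ℕ)) : ℤ) = N - 3 * c - 1 := by
      rw [Nat.cast_sub (by omega), Nat.cast_sub (by omega)]
      push_cast
      ring
    have h3 : (((N - 3 * c - 2 : ℕ)) : ℤ) = N - 3 * c - 2 := by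
      rw [Nat.cast_sub (by omega), Nat.cast_sub (by omega)]
      push_cast
      ring
    have h4 : (c : ℤ) ≤ e := by exact_mod_cast hc
    rw [Nat.cast_mul, h2, h3]
    nlinarith

theorem G2_sum (f : Finset α → ℕ) {d : ℕ} (h : NP H d W)
    (hf : ∀ C ∈ comps H W, ∀ e, NP H e C → f C ≤ e) :
    -((∑ C ∈ bigc H W, term f C : ℕ) : ℤ) ≤ G2 H d W := by
  classical
  revert hf
  refine join_induction (H := H) (P := fun d W => (∀ C ∈ comps H W, ∀ e, NP H e C → f C ≤ e) →
    -((∑ C ∈ bigc H W, term f C : ℕ) : ℤ) ≤ G2 H d W) ?_ ?_ ?_ h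
  · intro _
    rw [bigc, comps_empty]
    simp [G2, dg]
  · intro d W h hp _ hf
    have hpos : (0 : ℤ) ≤ ((∑ C ∈ bigc H W, term f C : ℕ) : ℤ) := Int.natCast_nonneg _
    by_cases hd : d + 1 ≤ 3
    · have h0 := G2_low hd h
      linarith
    · have hbig : bigc H W = {W} := by
        rw [bigc, comps_prm hp, Finset.filter_singleton, if_pos]
        obtain ⟨β, hβ, hβc, -⟩ := h.exists_facet
        obtain ⟨G, hG, hGc⟩ := Finset.exists_subset_card_eq (s := β) (n := 4) (by omega)
        exact ⟨G, cl_of_subset hβ hG, hGc⟩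
      rw [hbig, Finset.sum_singleton]
      have h1 := hf W (by rw [comps_prm hp]; exact Finset.mem_singleton_self W) (d + 1) h
      have h2 := G2_prime d h hp
      have h3 := term_ge (N := W.card) h1
      rw [term]
      push_cast at h2 h3 ⊢
      linarith
  · intro d₁ d₂ A B hA hB _ hAB h1 h2 hf
    have e1 : (((d₁ + 1 + (d₂ + 1) : ℕ)) : ℤ) = ((d₁ + 1 : ℕ) : ℤ) + ((d₂ + 1 : ℕ) : ℤ) := by
      push_cast; ring
    have h6 : (2 * ((d₁ + 1 : ℕ) : ℤ)) ≤ A.card := by exact_mod_cast hA.two_mul_le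
    have h7 : (2 * ((d₂ + 1 : ℕ) : ℤ)) ≤ B.card := by exact_mod_cast hB.two_mul_le
    have h8 : (0 : ℤ) ≤ (A.card - 2 * ((d₁ + 1 : ℕ) : ℤ)) * (B.card - 2 * ((d₂ + 1 : ℕ) : ℤ)) :=
      mul_nonneg (by linarith) (by linarith)
    have h9 := h1 (fun C hC => hf C (by rw [comps_union hAB]; exact Finset.mem_union_left _ hC))
    have h10 := h2 (fun C hC => hf C (by rw [comps_union hAB]; exact Finset.mem_union_right _ hC))
    rw [e1, G2_join hAB, bigc_union hAB]
    push_cast at h9 h10 h8 ⊢
    linarith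

end Pool.Agent.J6H64.DP
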