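import Pool.Agent.J6H30.Gal3.Mix

/-!
# Closed surfaces: `f₁ ≥ 3 f₀ - 6` for flag normal pseudomanifolds of rank 3

The ranks over `ZMod 2` of the two boundary matrices are at least `f₀ - 1` and `f₂ - 1`, and their product is zero.
-/

set_option autoImplicit false
set_option linter.unusedSectionVars false

namespace Pool.Agent.J6H64.DP

open Pool.Agent.W497.FS

variable {α : Type} [DecidableEq α] {H : SimpleGraph α}

theorem card_le_rank {I J : Type} [Fintype I] [Fintype J] [DecidableEq J] (M : Matrix I J (ZMod 2))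
    (h : ∀ f : J → ZMod 2, M.mulVec f = 0 → ∀ j j', f j = f j') : Fintype.card J ≤ M.rank + 1 := by
  have : Fact (Nat.Prime 2) := ⟨Nat.prime_two⟩
  have h1 := LinearMap.finrank_range_add_finrank_ker M.mulVecLin
  have h2 : Module.finrank (ZMod 2) (LinearMap.ker M.mulVecLin) ≤ 1 := by
    have h3 : LinearMap.ker M.mulVecLin ≤ Submodule.span (ZMod 2) {(fun _ => 1 : J → ZMod 2)} := by
      intro f hf
      rw [Submodule.mem_span_singleton]
      rw [LinearMap.mem_ker, Matrix.mulVecLin_apply] at hf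
      have h4 := h f hf
      rcases isEmpty_or_nonempty J with hJ | ⟨⟨j0⟩⟩
      · exact ⟨0, by ext j; exact (hJ.false j).elim⟩
      · exact ⟨f j0, by ext j; simp [h4 j j0]⟩
    refine (Submodule.finrank_mono h3).trans ((finrank_span_le_card _).trans ?_)
    simp
  rw [Module.finrank_fintype_fun_eq_card] at h1
  unfold Matrix.rank
  omega

/-- the edges -/
noncomputable def Ed (H : SimpleGraph α) (W : Finset α) : Finset (Finset α) := (cl H W).filter (fun s => s.card = 2)

/-- the triangles -/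
noncomputable def Tr (H : SimpleGraph α) (W : Finset α) : Finset (Finset α) := (cl H W).filter (fun s => s.card = 3)

theorem pair_mem {W : Finset α} {v x : α} (hv : v ∈ W) (hx : x ∈ W) (h : H.Adj v x) : {v, x} ∈ Ed H W := by
  rw [Ed, Finset.mem_filter, mem_cl]
  refine ⟨⟨?_, ?_⟩, Finset.card_pair h.ne⟩
  · intro y hy
    rcases Finset.mem_insert.1 hy with rfl | hy
    · exact hv
    · rw [Finset.mem_singleton.1 hy]; exact hx
  · intro a ha b hb hab
    simp only [Finset.mem_insert, Finset.mem_singleton] at ha hb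
    rcases ha with rfl | rfl <;> rcases hb with rfl | rfl
    · exact absurd rfl hab
    · exact h
    · exact h.symm
    · exact absurd rfl hab

theorem Ed_eq {W e : Finset α} (he : e ∈ Ed H W) {v : α} (hv : v ∈ e) :
    ∃ x, x ∈ W ∧ H.Adj v x ∧ e = {v, x} := by
  rw [Ed, Finset.mem_filter, mem_cl] at he
  obtain ⟨⟨h1, h2⟩, h3⟩ := he
  obtain ⟨a, b, hab, rfl⟩ := Finset.card_eq_two.1 h3
  simp only [Finset.mem_insert, Finset.mem_singleton] at hv
  rcases hv with rfl | rfl
  · exact ⟨b, h1 (by simp), h2 _ (by simp) _ (by simp) hab, rfl⟩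
  · exact ⟨a, h1 (by simp), h2 _ (by simp) _ (by simp) hab.symm, Finset.pair_comm _ _⟩

theorem card_Ed_mem {W : Finset α} {v : α} (hv : v ∈ W) :
    ((Ed H W).filter (fun e => v ∈ e)).card = (lk H W v).card := by
  symm
  refine Finset.card_bij (fun x _ => {v, x}) ?_ ?_ ?_
  · intro x hx
    rw [mem_lk] at hx
    exact Finset.mem_filter.2 ⟨pair_mem hv hx.1 hx.2, by simp⟩
  · intro x hx y hy hxy
    have h1 := (mem_lk.1 hx).2.ne
    have h2 : x ∈ ({v, y} : Finset α) := by rw [← hxy]; simp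
    simp only [Finset.mem_insert, Finset.mem_singleton] at h2
    rcases h2 with h2 | h2
    · exact absurd h2.symm h1
    · exact h2
  · intro e he
    obtain ⟨h1, h2⟩ := Finset.mem_filter.1 he
    obtain ⟨x, hx, hvx, rfl⟩ := Ed_eq h1 h2
    exact ⟨x, mem_lk.2 ⟨hx, hvx⟩, rfl⟩

theorem dg_Ed (W : Finset α) : Pool.Agent.TH417.Gal.dg H W = 2 * (Ed H W).card := by
  unfold Pool.Agent.TH417.Gal.dg
  have h1 : ∑ v ∈ W, (lk H W v).card = ∑ v ∈ W, ∑ e ∈ Ed H W, if v ∈ e then 1 else 0 := by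
    refine Finset.sum_congr rfl fun v hv => ?_
    rw [← card_Ed_mem hv, Finset.card_filter]
  rw [h1, Finset.sum_comm]
  have h2 : ∀ e ∈ Ed H W, (∑ v ∈ W, if v ∈ e then 1 else 0) = 2 := by
    intro e he
    rw [← Finset.card_filter]
    rw [Ed, Finset.mem_filter, mem_cl] at he
    rw [← he.2]
    congr 1
    ext x
    rw [Finset.mem_filter]
    exact ⟨fun h => h.2, fun h => ⟨he.1.1 h, h⟩⟩
  rw [Finset.sum_congr rfl h2, Finset.sum_const, smul_eq_mul, mul_comm]

/-- the edges of a triangle containing a vertex -/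
theorem card_Ed_Tr {W t : Finset α} (ht : t ∈ Tr H W) (v : α) :
    Even ((Ed H W).filter (fun e => v ∈ e ∧ e ⊆ t)).card := by
  rw [Tr, Finset.mem_filter, mem_cl] at ht
  obtain ⟨⟨h1, h2⟩, h3⟩ := ht
  by_cases hv : v ∈ t
  · have h4 : (Ed H W).filter (fun e => v ∈ e ∧ e ⊆ t) = (Ed H t).filter (fun e => v ∈ e) := by
      ext e
      simp only [Ed, Finset.mem_filter, mem_cl]
      constructor
      · rintro ⟨⟨⟨h5, h6⟩, h7⟩, h8, h9⟩
        exact ⟨⟨⟨h9, h6⟩, h7⟩, h8⟩
      · rintro ⟨⟨⟨h5, h6⟩, h7⟩, h8⟩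
        exact ⟨⟨⟨h5.trans h1, h6⟩, h7⟩, h8, h5⟩
    have h5 : lk H t v = t.erase v := by
      ext x
      rw [mem_lk, Finset.mem_erase]
      constructor
      · exact fun h => ⟨h.2.ne', h.1⟩
      · exact fun h => ⟨h.2, h2 v hv x h.2 h.1.symm⟩
    rw [h4, card_Ed_mem hv, h5, Finset.card_erase_of_mem hv, h3]
    decide
  · have h4 : (Ed H W).filter (fun e => v ∈ e ∧ e ⊆ t) = ∅ := by
      rw [Finset.filter_eq_empty_iff]
      intro e _ h
      exact hv (h.2 h.1)
    rw [h4]
    simp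

theorem card_Tr_Ed {W t : Finset α} (ht : t ∈ Tr H W) : ((Ed H W).filter (fun e => e ⊆ t)).card = 3 := by
  rw [Tr, Finset.mem_filter, mem_cl] at ht
  obtain ⟨⟨h1, h2⟩, h3⟩ := ht
  have h4 : (Ed H W).filter (fun e => e ⊆ t) = t.powersetCard 2 := by
    ext e
    simp only [Ed, Finset.mem_filter, mem_cl, Finset.mem_powersetCard]
    constructor
    · rintro ⟨⟨_, h7⟩, h8⟩
      exact ⟨h8, h7⟩
    · rintro ⟨h7, h8⟩
      exact ⟨⟨⟨h7.trans h1, fun x hx y hy hxy => h2 x (h7 hx) y (h7 hy) hxy⟩, h8⟩, h7⟩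
  rw [h4, Finset.card_powersetCard, h3]
  decide

theorem card_Ed_sup {W e : Finset α} (h : NP H 3 W) (he : e ∈ Ed H W) :
    ((Tr H W).filter (fun t => e ⊆ t)).card = 2 := by
  rw [Ed, Finset.mem_filter] at he
  obtain ⟨hc, h2⟩ := he
  have h3 := sum_sup hc (fun n => if n = 3 then 1 else 0)
  obtain ⟨d, hd, hL, -⟩ := h.lkF hc
  have h4 : d = 1 := by omega
  subst h4
  have h5 : (∑ ρ ∈ cl H (lkF H W e), if ρ.card + e.card = 3 then 1 else 0) = (lkF H W e).card := by
    rw [← Finset.card_filter]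
    symm
    refine Finset.card_bij (fun x _ => {x}) ?_ ?_ ?_
    · intro x hx
      rw [Finset.mem_filter]
      exact ⟨singleton_mem_cl hx, by rw [h2]; simp⟩
    · intro x _ y _ hxy
      exact Finset.singleton_injective hxy
    · intro ρ hρ
      obtain ⟨h6, h7⟩ := Finset.mem_filter.1 hρ
      obtain ⟨x, rfl⟩ := Finset.card_eq_one.1 (show ρ.card = 1 by omega)
      exact ⟨x, (mem_cl.1 h6).1 (by simp), rfl⟩
  rw [h5] at h3
  rw [← hL.1, ← h3, ← Finset.card_filter, Finset.filter_filter]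
  rw [Tr, Finset.filter_filter]
  congr 1
  ext t
  simp only [Finset.mem_filter]
  tauto

theorem two_Ed (W : Finset α) (h : NP H 3 W) : 2 * (Ed H W).card = 3 * (Tr H W).card := by
  have h1 : ∑ e ∈ Ed H W, ((Tr H W).filter (fun t => e ⊆ t)).card = 2 * (Ed H W).card := by
    rw [Finset.sum_congr rfl (fun e he => card_Ed_sup h he), Finset.sum_const, smul_eq_mul, mul_comm]
  have h2 : ∑ t ∈ Tr H W, ((Ed H W).filter (fun e => e ⊆ t)).card = 3 * (Tr H W).card := by
    rw [Finset.sum_congr rfl (fun e he => card_Tr_Ed he), Finset.sum_const, smul_eq_mul, mul_comm]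
  rw [← h1, ← h2]
  simp only [Finset.card_filter]
  exact Finset.sum_comm

theorem two_eq {a b : ZMod 2} (h : a + b = 0) : a = b := by
  revert a b
  decide

/-- a function which is constant on edges is constant -/
theorem sconn_const {W : Finset α} (h : SConn H W) {P : α → Prop} {v : α} (hv : v ∈ W) (hP : P v)
    (hs : ∀ a ∈ W, ∀ b ∈ W, P a → H.Adj a b → P b) : ∀ x ∈ W, P x := by
  classical
  by_contra hcon
  push Not at hcon
  obtain ⟨z, hz, hPz⟩ := hcon
  obtain ⟨a, ha, b, hb, hbA, hab⟩ := h (W.filter P) (Finset.filter_subset _ _) ⟨v, Finset.mem_filter.2 ⟨hv, hP⟩⟩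
    (fun h2 => hPz (Finset.mem_filter.1 (h2 ▸ hz)).2)
  obtain ⟨ha1, ha2⟩ := Finset.mem_filter.1 ha
  exact hbA (Finset.mem_filter.2 ⟨hb, hs a ha1 b hb ha2 hab⟩)

theorem Tr_eq {W t : Finset α} (ht : t ∈ Tr H W) {v : α} (hv : v ∈ t) :
    ∃ x y, x ∈ lk H W v ∧ y ∈ lk H W v ∧ H.Adj x y ∧ t = {v, x, y} := by
  rw [Tr, Finset.mem_filter, mem_cl] at ht
  obtain ⟨⟨h1, h2⟩, h3⟩ := ht
  have h4 : (t.erase v).card = 2 := by rw [Finset.card_erase_of_mem hv, h3]
  obtain ⟨x, y, hxy, hE⟩ := Finset.card_eq_two.1 h4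
  have hx : x ∈ t.erase v := by rw [hE]; simp
  have hy : y ∈ t.erase v := by rw [hE]; simp
  rw [Finset.mem_erase] at hx hy
  refine ⟨x, y, mem_lk.2 ⟨h1 hx.2, h2 v hv x hx.2 hx.1.symm⟩, mem_lk.2 ⟨h1 hy.2, h2 v hv y hy.2 hy.1.symm⟩,
    h2 x hx.2 y hy.2 hxy, ?_⟩
  rw [← hE, Finset.insert_erase hv]

theorem tri_mem {W : Finset α} {v x y : α} (hv : v ∈ W) (hx : x ∈ lk H W v) (hy : y ∈ lk H W v) (h : H.Adj x y) :
    {v, x, y} ∈ Tr H W := by
  rw [mem_lk] at hx hy
  rw [Tr, Finset.mem_filter, mem_cl]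
  refine ⟨⟨?_, ?_⟩, Finset.card_eq_three.2 ⟨v, x, y, hx.2.ne, hy.2.ne, h.ne, rfl⟩⟩
  · intro z hz
    simp only [Finset.mem_insert, Finset.mem_singleton] at hz
    rcases hz with rfl | rfl | rfl
    · exact hv
    · exact hx.1
    · exact hy.1
  · intro a ha b hb hab
    simp only [Finset.mem_insert, Finset.mem_singleton] at ha hb
    rcases ha with rfl | rfl | rfl <;> rcases hb with rfl | rfl | rfl
    all_goals first | exact absurd rfl hab | exact hx.2 | exact hy.2 | exact h | exact hx.2.symm | exact hy.2.symm | exact h.symm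

/-- strong connectivity: a function on the triangles which agrees on the triangles of each edge is constant -/
theorem Tr_const {W : Finset α} (h : NP H 3 W) (g : Finset α → ZMod 2)
    (hg : ∀ e ∈ Ed H W, ∀ t ∈ Tr H W, ∀ t' ∈ Tr H W, e ⊆ t → e ⊆ t' → g t = g t') :
    ∀ t ∈ Tr H W, ∀ t' ∈ Tr H W, g t = g t' := by
  have hstar : ∀ v ∈ W, ∃ c, ∀ t ∈ Tr H W, v ∈ t → g t = c := by
    intro v hv
    have hL : NP H 2 (lk H W v) := h.lk hv
    obtain ⟨x0, hx0⟩ := hL.nonempty
    have hL1 : NP H 1 (lk H (lk H W v) x0) := hL.lk hx0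
    obtain ⟨y0, hy0⟩ := hL1.nonempty
    rw [mem_lk] at hy0
    refine ⟨g {v, x0, y0}, ?_⟩
    have key : ∀ x ∈ lk H W v, ∀ t ∈ Tr H W, v ∈ t → x ∈ t → g t = g {v, x0, y0} := by
      refine sconn_const hL.2.1 hx0 ?_ ?_
      · intro t ht hvt hxt
        refine hg {v, x0} (pair_mem hv (mem_lk.1 hx0).1 (mem_lk.1 hx0).2) t ht _ (tri_mem hv hx0 hy0.1 hy0.2) ?_ ?_
        · intro z hz
          simp only [Finset.mem_insert, Finset.mem_singleton] at hz
          rcases hz with rfl | rfl <;> assumption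
        · intro z hz
          simp only [Finset.mem_insert, Finset.mem_singleton] at hz ⊢
          tauto
      · intro a ha b hb hPa hab t ht hvt hbt
        have h1 : {v, a, b} ∈ Tr H W := tri_mem hv ha hb hab
        rw [← hPa _ h1 (by simp) (by simp)]
        refine hg {v, b} (pair_mem hv (mem_lk.1 hb).1 (mem_lk.1 hb).2) t ht _ h1 ?_ ?_
        · intro z hz
          simp only [Finset.mem_insert, Finset.mem_singleton] at hz
          rcases hz with rfl | rfl <;> assumption
        · intro z hz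
          simp only [Finset.mem_insert, Finset.mem_singleton] at hz ⊢
          tauto
    intro t ht hvt
    obtain ⟨x, y, hx, hy, hxy, rfl⟩ := Tr_eq ht hvt
    exact key x hx _ ht (by simp) (by simp)
  obtain ⟨v0, hv0⟩ := h.nonempty
  obtain ⟨c, hc⟩ := hstar v0 hv0
  have hall : ∀ v ∈ W, ∀ t ∈ Tr H W, v ∈ t → g t = c := by
    refine sconn_const h.2.1 hv0 hc ?_
    intro a ha b hb hPa hab t ht hbt
    obtain ⟨c', hc'⟩ := hstar b hb
    have hL : NP H 2 (lk H W a) := h.lk ha
    have hbL : b ∈ lk H W a := mem_lk.2 ⟨hb, hab⟩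
    have hL1 : NP H 1 (lk H (lk H W a) b) := hL.lk hbL
    obtain ⟨y, hy⟩ := hL1.nonempty
    rw [mem_lk] at hy
    have h1 : {a, b, y} ∈ Tr H W := tri_mem ha hbL hy.1 hy.2
    rw [hc' t ht hbt, ← hc' _ h1 (by simp), hPa _ h1 (by simp)]
  intro t ht t' ht'
  have hne : ∀ t ∈ Tr H W, g t = c := by
    intro t ht
    have h1 := ht
    rw [Tr, Finset.mem_filter, mem_cl] at h1
    obtain ⟨x, hx⟩ := Finset.card_pos.1 (by omega : 0 < t.card)
    exact hall x (h1.1.1 hx) t ht hx
  rw [hne t ht, hne t' ht']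

/-- **closed surfaces** -/
theorem surf {W : Finset α} (h : NP H 3 W) : 6 * W.card ≤ Pool.Agent.TH417.Gal.dg H W + 12 := by
  classical
  have : Fact (Nat.Prime 2) := ⟨Nat.prime_two⟩
  let A : Matrix (Ed H W) W (ZMod 2) := Matrix.of fun e v => if v.1 ∈ e.1 then 1 else 0
  let B : Matrix (Tr H W) (Ed H W) (ZMod 2) := Matrix.of fun t e => if e.1 ⊆ t.1 then 1 else 0
  have hBA : B * A = 0 := by
    ext t v
    rw [Matrix.mul_apply]
    simp only [A, B, Matrix.of_apply, Matrix.zero_apply]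
    have h1 : ∀ e : Ed H W, ((if e.1 ⊆ t.1 then (1 : ZMod 2) else 0) * if v.1 ∈ e.1 then 1 else 0) =
        if v.1 ∈ e.1 ∧ e.1 ⊆ t.1 then 1 else 0 := by
      intro e
      by_cases h5 : e.1 ⊆ t.1 <;> by_cases h6 : v.1 ∈ e.1 <;> simp [h5, h6]
    rw [Finset.sum_congr rfl (fun e _ => h1 e)]
    rw [Finset.sum_coe_sort (Ed H W) (fun e => if v.1 ∈ e ∧ e ⊆ t.1 then (1 : ZMod 2) else 0)]
    rw [Finset.sum_boole]
    exact (ZMod.natCast_eq_zero_iff_even).2 (card_Ed_Tr t.2 v.1)
  have hA : Fintype.card W ≤ A.rank + 1 := by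
    refine card_le_rank A fun f hf => ?_
    have hs : ∀ a b : W, H.Adj a.1 b.1 → f a = f b := by
      intro a b hab
      have h1 := congrFun hf ⟨{a.1, b.1}, pair_mem a.2 b.2 hab⟩
      simp only [Matrix.mulVec, dotProduct, A, Matrix.of_apply, Pi.zero_apply] at h1
      apply two_eq
      rw [← h1]
      have h2 : ∀ x : W, ((if x.1 ∈ ({a.1, b.1} : Finset α) then (1 : ZMod 2) else 0) * f x) =
          (if x = a then f a else 0) + if x = b then f b else 0 := by
        intro x
        have hne : a ≠ b := fun h => hab.ne (congrArg Subtype.val h)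
        by_cases hxa : x = a
        · subst hxa
          rw [if_pos (by simp), if_pos rfl, if_neg hne]
          simp
        · by_cases hxb : x = b
          · subst hxb
            rw [if_pos (by simp), if_neg hxa, if_pos rfl]
            simp
          · rw [if_neg, if_neg hxa, if_neg hxb]
            · simp
            · simp only [Finset.mem_insert, Finset.mem_singleton]
              rintro (h | h)
              · exact hxa (Subtype.ext h)
              · exact hxb (Subtype.ext h)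
      rw [Finset.sum_congr rfl (fun x _ => h2 x), Finset.sum_add_distrib]
      simp
    intro j j'
    have h3 := sconn_const h.2.1 (P := fun x => ∀ hx : x ∈ W, f ⟨x, hx⟩ = f j) j.2 (fun _ => rfl)
      (fun a ha b hb hPa hab hb' => by rw [← hPa ha]; exact (hs ⟨a, ha⟩ ⟨b, hb'⟩ hab).symm)
    exact (h3 j'.1 j'.2 j'.2).symm
  have hB : Fintype.card (Tr H W) ≤ B.rank + 1 := by
    rw [← Matrix.rank_transpose]
    refine card_le_rank B.transpose fun f hf => ?_
    let g : Finset α → ZMod 2 := fun t => if ht : t ∈ Tr H W then f ⟨t, ht⟩ else 0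
    have hgf : ∀ t : Tr H W, g t.1 = f t := fun t => by simp [g]
    have hs : ∀ e ∈ Ed H W, ∀ t ∈ Tr H W, ∀ t' ∈ Tr H W, e ⊆ t → e ⊆ t' → g t = g t' := by
      intro e he t ht t' ht' het het'
      have h1 := congrFun hf ⟨e, he⟩
      simp only [Matrix.mulVec, dotProduct, B, Matrix.transpose_apply, Matrix.of_apply, Pi.zero_apply] at h1
      have h2 : ∀ x : Tr H W, ((if e ⊆ x.1 then (1 : ZMod 2) else 0) * f x) = if e ⊆ x.1 then g x.1 else 0 := by
        intro x
        rw [hgf]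
        split_ifs <;> simp
      rw [Finset.sum_congr rfl (fun x _ => h2 x),
        Finset.sum_coe_sort (Tr H W) (fun x => if e ⊆ x then g x else 0), ← Finset.sum_filter] at h1
      obtain ⟨t1, t2, h12, hE⟩ := Finset.card_eq_two.1 (card_Ed_sup h he)
      rw [hE, Finset.sum_pair h12] at h1
      have h3 := two_eq h1
      have h4 : t ∈ ({t1, t2} : Finset (Finset α)) := by rw [← hE]; exact Finset.mem_filter.2 ⟨ht, het⟩
      have h5 : t' ∈ ({t1, t2} : Finset (Finset α)) := by rw [← hE]; exact Finset.mem_filter.2 ⟨ht', het'⟩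
      simp only [Finset.mem_insert, Finset.mem_singleton] at h4 h5
      rcases h4 with rfl | rfl <;> rcases h5 with rfl | rfl <;> first | rfl | exact h3 | exact h3.symm
    intro j j'
    rw [← hgf, ← hgf]
    exact Tr_const h g hs _ j.2 _ j'.2
  have h1 := Matrix.rank_add_rank_le_card_of_mul_eq_zero (A := B) (B := A) hBA
  have h2 := two_Ed W h
  have h3 := dg_Ed (H := H) W
  simp only [Fintype.card_coe] at h1 hA hB
  omega

end Pool.Agent.J6H64.DP
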